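import Pool.Agent.Run7.h332.WP.Basis3
import Pool.Agent.Run7.h332.WP.Lower

/-!
# MP_586e66_nt: three exact cubes and one randomly perturbed cube

Let `8/27 < δ ≤ 2/3` and let `ξ n` be independent random nonnegative integers such that each integer
`j ≤ n ^ (3 δ)` is the value of `ξ n` with probability at least `c / n ^ (3 δ)`, for instance uniform on the
integers `≤ n ^ (3 δ)`. Here `3 δ` may be any number above `8/9`, so that the *perturbed cube* `n ^ 3 + ξ n`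
may be taken to differ from `n ^ 3` by much less than `n`. Almost surely all but finitely many integers are
sums of three cubes of positive integers and one perturbed cube (of a positive integer): four terms, three
of them exact. For `δ > 4/9` the same is true for two exact and two perturbed cubes. Three terms never
suffice: for each pattern of `t` exact and `3 - t` perturbed cubes, zero allowed, there are infinitely many
exceptions.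
-/

open MeasureTheory ProbabilityTheory Filter

namespace Pool.Agent.Results.MP_586e66_nt.ThreeCubesAndOnePerturbed

/-- **Main result.** -/
theorem result {Ω : Type*} [MeasurableSpace Ω] (P : Measure Ω) [IsProbabilityMeasure P]
    (δ : ℝ) (hδ0 : 8 / 27 < δ) (hδ1 : δ ≤ 2 / 3) (κ : ℝ) (hκ : 0 < κ)
    (ξ : ℕ → Ω → ℕ) (hm : ∀ n, Measurable (ξ n)) (hind : iIndepFun ξ P)
    (hdens : ∀ n j : ℕ, 1 ≤ n → (j : ℝ) ≤ (n : ℝ) ^ (3 * δ) →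
      κ / (n : ℝ) ^ (3 * δ) ≤ P.real {ω | ξ n ω = j}) :
    ∀ᵐ ω ∂P,
      {m : ℕ | ¬ ∃ a b c d : ℕ, 1 ≤ a ∧ 1 ≤ b ∧ 1 ≤ c ∧ 1 ≤ d ∧
        m = a ^ 3 + b ^ 3 + c ^ 3 + (d ^ 3 + ξ d ω)}.Finite ∧
      (4 / 9 < δ → {m : ℕ | ¬ ∃ a b c d : ℕ, 1 ≤ a ∧ 1 ≤ b ∧ 1 ≤ c ∧ 1 ≤ d ∧
        m = a ^ 3 + b ^ 3 + (c ^ 3 + ξ c ω) + (d ^ 3 + ξ d ω)}.Finite) ∧
      {m : ℕ | ¬ ∃ a b c : ℕ, m = a ^ 3 + b ^ 3 + c ^ 3}.Infinite ∧
      {m : ℕ | ¬ ∃ a b c : ℕ, m = a ^ 3 + b ^ 3 + (c ^ 3 + ξ c ω)}.Infinite ∧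
      {m : ℕ | ¬ ∃ a b c : ℕ, m = a ^ 3 + (b ^ 3 + ξ b ω) + (c ^ 3 + ξ c ω)}.Infinite ∧
      {m : ℕ | ¬ ∃ a b c : ℕ, m = (a ^ 3 + ξ a ω) + (b ^ 3 + ξ b ω) + (c ^ 3 + ξ c ω)}.Infinite := by
  have hd : ∀ n j : ℕ, 1 ≤ n → (j : ℝ) ≤ (n : ℝ) ^ (δ * (3 : ℕ)) →
      κ / (n : ℝ) ^ (δ * (3 : ℕ)) ≤ P.real {ω | ξ n ω = j} := by
    intro n j hn hj
    have h : δ * ((3 : ℕ) : ℝ) = 3 * δ := by push_cast; ring
    rw [h] at hj ⊢
    exact hdens n j hn hj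
  filter_upwards [Run7.h332.WP.positive 3 (by norm_num) δ (by linarith) (by norm_num; linarith)
    κ hκ ξ hm hind hd] with ω hω
  have fin : ∀ S : Set ℕ, (∃ N₀ : ℕ, ∀ m, N₀ ≤ m → m ∉ S) → S.Finite := by
    rintro S ⟨N₀, h⟩
    refine (Set.finite_lt_nat N₀).subset fun m hmS => ?_
    by_contra hcon
    exact h m (not_lt.mp hcon) hmS
  have inf : ∀ S : Set ℕ, (¬ ∃ N₀ : ℕ, ∀ m, N₀ ≤ m → m ∉ S) → S.Infinite := by
    intro S h hfin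
    obtain ⟨B, hB⟩ := hfin.bddAbove
    refine h ⟨B + 1, fun m hm hmS => ?_⟩
    have := hB hmS
    omega
  have low : ∀ t q : ℕ, t + q = 3 → ¬ ∃ N₀ : ℕ, ∀ m : ℕ, N₀ ≤ m →
      ∃ (a : Fin t → ℕ) (b : Fin q → ℕ),
        m = ∑ i, (a i) ^ 3 + ∑ i, ((b i) ^ 3 + ξ (b i) ω) := by
    rintro t q htq ⟨N₀, h⟩
    have := Run7.h332.WP.lower 3 le_rfl (fun n => ξ n ω) t q N₀ h
    omega
  refine ⟨?_, fun hδ => ?_, ?_, ?_, ?_, ?_⟩
  · obtain ⟨N₀, h⟩ := hω 3 1 (by norm_num; linarith) (by norm_num)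
    refine fin _ ⟨N₀, fun m hmN hmS => hmS ?_⟩
    obtain ⟨a, b, ha, hb, hab⟩ := h m hmN
    refine ⟨a 0, a 1, a 2, b 0, ha 0, ha 1, ha 2, hb 0, ?_⟩
    rw [hab, Fin.sum_univ_three, Fin.sum_univ_one]
  · obtain ⟨N₀, h⟩ := hω 2 2 (by norm_num; linarith) (by norm_num)
    refine fin _ ⟨N₀, fun m hmN hmS => hmS ?_⟩
    obtain ⟨a, b, ha, hb, hab⟩ := h m hmN
    refine ⟨a 0, a 1, b 0, b 1, ha 0, ha 1, hb 0, hb 1, ?_⟩
    rw [hab, Fin.sum_univ_two, Fin.sum_univ_two]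
    ring
  · refine inf _ fun ⟨N₀, h⟩ => low 3 0 rfl ⟨N₀, fun m hm => ?_⟩
    obtain ⟨a, b, c, hc⟩ := not_not.mp (h m hm)
    refine ⟨![a, b, c], ![], ?_⟩
    rw [Fin.sum_univ_three, Fin.sum_univ_zero]
    simpa using hc
  · refine inf _ fun ⟨N₀, h⟩ => low 2 1 rfl ⟨N₀, fun m hm => ?_⟩
    obtain ⟨a, b, c, hc⟩ := not_not.mp (h m hm)
    refine ⟨![a, b], ![c], ?_⟩
    rw [Fin.sum_univ_two, Fin.sum_univ_one]
    simpa using hc
  · refine inf _ fun ⟨N₀, h⟩ => low 1 2 rfl ⟨N₀, fun m hm => ?_⟩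
    obtain ⟨a, b, c, hc⟩ := not_not.mp (h m hm)
    refine ⟨![a], ![b, c], ?_⟩
    rw [Fin.sum_univ_two, Fin.sum_univ_one]
    simp only [Matrix.cons_val_zero, Matrix.cons_val_one]
    rw [hc]
    ring
  · refine inf _ fun ⟨N₀, h⟩ => low 0 3 rfl ⟨N₀, fun m hm => ?_⟩
    obtain ⟨a, b, c, hc⟩ := not_not.mp (h m hm)
    refine ⟨![], ![a, b, c], ?_⟩
    rw [Fin.sum_univ_three, Fin.sum_univ_zero, zero_add]
    simpa using hc

end Pool.Agent.Results.MP_586e66_nt.ThreeCubesAndOnePerturbed
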